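import Mathlib

set_option autoImplicit false

open Finset

namespace Pool.Agent.Results.MP_93593e_co.SixBound

universe u

section Statement

variable {V : Type u}

/-- A digraph on the vertex set `V`, given by its set of arcs `E ⊆ V × V`, is strongly connected
if every vertex can be reached from every vertex by a directed path. -/
def StronglyConnected (E : Set (V × V)) : Prop :=
  ∀ a b : V, Relation.ReflTransGen (fun x y => (x, y) ∈ E) a b

/-- The underlying simple graph: distinct vertices `a`, `b` are adjacent iff `(a, b)` or `(b, a)`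
is an arc. -/
def underlying (E : Set (V × V)) : SimpleGraph V where
  Adj a b := a ≠ b ∧ ((a, b) ∈ E ∨ (b, a) ∈ E)
  symm := ⟨fun _ _ h => ⟨h.1.symm, h.2.symm⟩⟩
  loopless := ⟨fun _ h => h.1 rfl⟩

/-- An undirected graph is biconnected if it is connected and deleting any single vertex leaves
it connected. -/
def Biconnected (U : SimpleGraph V) : Prop :=
  U.Connected ∧ ∀ v : V, (U.induce {w | w ≠ v}).Connected

/-- Strongly connected, with biconnected underlying graph. -/
def StronglyBiconnected (E : Set (V × V)) : Prop :=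
  StronglyConnected E ∧ Biconnected (underlying E)

/-- Strongly biconnected, at least three vertices, and still strongly biconnected after the
deletion of any single arc. -/
def TwoEdgeStronglyBiconnected (E : Set (V × V)) : Prop :=
  StronglyBiconnected E ∧ 3 ≤ Nat.card V ∧ ∀ e ∈ E, StronglyBiconnected (E \ {e})

/-- 2-edge-strongly biconnected, but no longer so after the deletion of any arc. -/
def MinimalTwoEdgeStronglyBiconnected (E : Set (V × V)) : Prop :=
  TwoEdgeStronglyBiconnected E ∧ ∀ e ∈ E, ¬ TwoEdgeStronglyBiconnected (E \ {e})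

end Statement

section Core

variable {V : Type*} [Fintype V] [DecidableEq V]

/-- crossing indicator of an arc with respect to the biset `(I, O)` -/
def cr (I O : Finset V) (e : V × V) : ℕ :=
  if (e.1 ∈ I ∧ e.2 ∉ O) ∨ (e.2 ∈ I ∧ e.1 ∉ O) then 1 else 0

def dd (G : Finset (V × V)) (I O : Finset V) : ℕ := ∑ e ∈ G, cr I O e

def ff (G : Finset (V × V)) (I O : Finset V) : ℕ := dd G I O + 2 * (O \ I).card

omit [Fintype V] in
lemma cr_submod (XI XO YI YO : Finset V) (hX : XI ⊆ XO) (hY : YI ⊆ YO) (e : V × V) :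
    cr (XI ∩ YI) (XO ∩ YO) e + cr (XI ∪ YI) (XO ∪ YO) e ≤ cr XI XO e + cr YI YO e := by
  obtain ⟨a, b⟩ := e
  have h1 := @hX a
  have h2 := @hX b
  have h3 := @hY a
  have h4 := @hY b
  unfold cr
  simp only [Finset.mem_inter, Finset.mem_union]
  by_cases p1 : a ∈ XI <;> by_cases p2 : a ∈ XO <;> by_cases p3 : a ∈ YI <;>
  by_cases p4 : a ∈ YO <;> by_cases p5 : b ∈ XI <;> by_cases p6 : b ∈ XO <;>
  by_cases p7 : b ∈ YI <;> by_cases p8 : b ∈ YO <;>
  simp_all

omit [Fintype V] in
lemma card_submod (XI XO YI YO : Finset V) (hX : XI ⊆ XO) (hY : YI ⊆ YO) :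
    ((XO ∩ YO) \ (XI ∩ YI)).card + ((XO ∪ YO) \ (XI ∪ YI)).card =
      (XO \ XI).card + (YO \ YI).card := by
  rw [Finset.card_sdiff_of_subset (Finset.inter_subset_inter hX hY),
    Finset.card_sdiff_of_subset (Finset.union_subset_union hX hY),
    Finset.card_sdiff_of_subset hX, Finset.card_sdiff_of_subset hY]
  have h1 := Finset.card_union_add_card_inter XO YO
  have h2 := Finset.card_union_add_card_inter XI YI
  have h3 := Finset.card_le_card hX
  have h4 := Finset.card_le_card hY
  have h5 := Finset.card_le_card (Finset.inter_subset_inter hX hY)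
  have h6 := Finset.card_le_card (Finset.union_subset_union hX hY)
  omega

omit [Fintype V] in
lemma ff_submod (G : Finset (V × V)) (XI XO YI YO : Finset V) (hX : XI ⊆ XO) (hY : YI ⊆ YO) :
    ff G (XI ∩ YI) (XO ∩ YO) + ff G (XI ∪ YI) (XO ∪ YO) ≤ ff G XI XO + ff G YI YO := by
  have h1 := card_submod XI XO YI YO hX hY
  have h2 : dd G (XI ∩ YI) (XO ∩ YO) + dd G (XI ∪ YI) (XO ∪ YO) ≤ dd G XI XO + dd G YI YO := by
    unfold dd
    rw [← Finset.sum_add_distrib, ← Finset.sum_add_distrib]
    exact Finset.sum_le_sum fun e _ => cr_submod XI XO YI YO hX hY e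
  unfold ff
  omega

omit [Fintype V] in
lemma ff_submod_strict (G : Finset (V × V)) (XI XO YI YO : Finset V) (hX : XI ⊆ XO)
    (hY : YI ⊆ YO) (e : V × V) (he : e ∈ G)
    (hs : cr (XI ∩ YI) (XO ∩ YO) e + cr (XI ∪ YI) (XO ∪ YO) e < cr XI XO e + cr YI YO e) :
    ff G (XI ∩ YI) (XO ∩ YO) + ff G (XI ∪ YI) (XO ∪ YO) < ff G XI XO + ff G YI YO := by
  have h1 := card_submod XI XO YI YO hX hY
  have h2 : dd G (XI ∩ YI) (XO ∩ YO) + dd G (XI ∪ YI) (XO ∪ YO) < dd G XI XO + dd G YI YO := by
    unfold dd
    rw [← Finset.sum_add_distrib, ← Finset.sum_add_distrib]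
    exact Finset.sum_lt_sum (fun e _ => cr_submod XI XO YI YO hX hY e) ⟨e, he, hs⟩
  unfold ff
  omega

lemma cr_compl (I O : Finset V) (e : V × V) : cr Oᶜ Iᶜ e = cr I O e := by
  unfold cr
  simp only [Finset.mem_compl, not_not]
  congr 1
  apply propext
  tauto

lemma ff_compl (G : Finset (V × V)) (I O : Finset V) : ff G Oᶜ Iᶜ = ff G I O := by
  unfold ff dd
  have h : Iᶜ \ Oᶜ = O \ I := by
    ext x
    simp only [Finset.mem_sdiff, Finset.mem_compl, not_not]
    tauto
  rw [h]
  simp only [cr_compl]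

/-- the biset `(I, O)` is proper, has value 4 and is crossed by an arc of `R'` leaving from
`x ∈ I` (in either direction) to `y ∉ O`. -/
def Tt (G R' : Finset (V × V)) (I O : Finset V) (x y : V) : Prop :=
  I ⊆ O ∧ ff G I O = 4 ∧ ((x, y) ∈ R' ∨ (y, x) ∈ R') ∧ x ∈ I ∧ y ∉ O

lemma Tt.compl {G R' : Finset (V × V)} {I O : Finset V} {x y : V} (h : Tt G R' I O x y) :
    Tt G R' Oᶜ Iᶜ y x := by
  obtain ⟨h1, h2, h3, h4, h5⟩ := h
  refine ⟨Finset.compl_subset_compl.mpr h1, by rw [ff_compl]; exact h2, h3.symm, ?_, ?_⟩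
  · simpa using h5
  · simpa using h4

omit [Fintype V] in
lemma dd_mono {G H : Finset (V × V)} (h : G ⊆ H) (I O : Finset V) : dd G I O ≤ dd H I O :=
  Finset.sum_le_sum_of_subset h

omit [Fintype V] in
lemma dd_union {G H : Finset (V × V)} (h : Disjoint G H) (I O : Finset V) :
    dd (G ∪ H) I O = dd G I O + dd H I O :=
  Finset.sum_union h

omit [Fintype V] in
lemma cr_le_one (I O : Finset V) (e : V × V) : cr I O e ≤ 1 := by
  unfold cr; split_ifs <;> omega

omit [Fintype V] in
lemma one_le_dd {G : Finset (V × V)} {I O : Finset V} {x y : V}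
    (h : (x, y) ∈ G ∨ (y, x) ∈ G) (hx : x ∈ I) (hy : y ∉ O) : 1 ≤ dd G I O := by
  unfold dd
  rcases h with h | h
  · calc 1 = cr I O (x, y) := by simp [cr, hx, hy]
      _ ≤ _ := Finset.single_le_sum (f := cr I O) (fun _ _ => Nat.zero_le _) h
  · calc 1 = cr I O (y, x) := by simp [cr, hx, hy]
      _ ≤ _ := Finset.single_le_sum (f := cr I O) (fun _ _ => Nat.zero_le _) h

/-- Standing assumptions. -/
structure Setup (H R : Finset (V × V)) : Prop where
  loop : ∀ v, (v, v) ∉ H ∪ R
  disj : Disjoint H R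
  four : ∀ I : Finset V, I.Nonempty → I ≠ univ → 4 ≤ dd H I I
  two : ∀ I O : Finset V, I ⊆ O → I.Nonempty → O ≠ univ → (O \ I).card = 1 → 2 ≤ dd (H ∪ R) I O
  crit : ∀ x y, (x, y) ∈ R → ∃ I O : Finset V, I ⊆ O ∧ (O \ I).card = 1 ∧ dd (H ∪ R) I O = 2 ∧
    ((x ∈ I ∧ y ∉ O) ∨ (y ∈ I ∧ x ∉ O))

variable {H R R' : Finset (V × V)}

lemma Setup.four_le (hs : Setup H R) {I O : Finset V} (h1 : I ⊆ O) (h2 : I.Nonempty)
    (h3 : O ≠ univ) : 4 ≤ ff (H ∪ R) I O := by
  unfold ff
  rcases Nat.lt_trichotomy (O \ I).card 1 with h | h | h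
  · have h0 : (O \ I).card = 0 := by omega
    rw [Finset.card_eq_zero, Finset.sdiff_eq_empty_iff_subset] at h0
    have : I = O := Finset.Subset.antisymm h1 h0
    subst this
    have := hs.four I h2 h3
    have := dd_mono (Finset.subset_union_left (s₁ := H) (s₂ := R)) I I
    omega
  · have := hs.two I O h1 h2 h3 h
    omega
  · omega

lemma Setup.T1 (hs : Setup H R) (hR : R' ⊆ R) {I O : Finset V} {x y : V}
    (h : Tt (H ∪ R) R' I O x y) : (O \ I).card = 1 ∧ dd (H ∪ R) I O = 2 := by
  obtain ⟨h1, h2, h3, h4, h5⟩ := h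
  have h3' : (x, y) ∈ R ∨ (y, x) ∈ R := h3.imp (@hR _) (@hR _)
  have hR1 : 1 ≤ dd R I O := one_le_dd h3' h4 h5
  have hne : O ≠ univ := fun h => h5 (h ▸ Finset.mem_univ y)
  rw [ff, dd_union hs.disj] at h2
  rw [dd_union hs.disj]
  rcases Nat.lt_trichotomy (O \ I).card 1 with h | h | h
  · exfalso
    have h0 : (O \ I).card = 0 := by omega
    rw [Finset.card_eq_zero, Finset.sdiff_eq_empty_iff_subset] at h0
    have : I = O := Finset.Subset.antisymm h1 h0
    subst this
    have := hs.four I ⟨x, h4⟩ hne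
    omega
  · omega
  · omega

/-- no tight biset has a singleton inner set -/
lemma Setup.T3 (hs : Setup H R) (hR : R' ⊆ R) {I O : Finset V} {x y : V}
    (h : Tt (H ∪ R) R' I O x y) : 2 ≤ I.card := by
  obtain ⟨hc, hd⟩ := hs.T1 hR h
  obtain ⟨h1, h2, h3, h4, h5⟩ := h
  by_contra hcon
  have hI : I = {x} := by
    have : I.card ≤ 1 := by omega
    rw [Finset.card_le_one] at this
    ext z
    simp only [Finset.mem_singleton]
    exact ⟨fun hz => this z hz x h4, fun hz => hz ▸ h4⟩
  subst hI
  obtain ⟨s, hsO⟩ := Finset.card_eq_one.mp hc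
  have hmem : ∀ z, z ∈ O ↔ z = x ∨ z = s := by
    intro z
    constructor
    · intro hz
      by_cases hzx : z = x
      · exact Or.inl hzx
      · right
        have : z ∈ O \ {x} := by simp [hz, hzx]
        rw [hsO] at this
        simpa using this
    · rintro (rfl | rfl)
      · exact h1 h4
      · have : z ∈ O \ {x} := by rw [hsO]; simp
        exact (Finset.mem_sdiff.mp this).1
  have hne : ({x} : Finset V) ≠ univ := by
    intro hh
    apply h5
    have : y ∈ ({x} : Finset V) := hh ▸ Finset.mem_univ y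
    exact h1 this
  have h4' := hs.four {x} ⟨x, h4⟩ hne
  -- arcs of H at x not crossing are (x,s), (s,x)
  have hle : dd H {x} {x} ≤ dd H {x} O + 2 := by
    have hpt : ∀ e ∈ H, cr {x} {x} e ≤ cr {x} O e +
        ((if e = (x, s) then 1 else 0) + (if e = (s, x) then 1 else 0)) := by
      rintro ⟨a, b⟩ hab
      have hl : a ≠ b := by
        rintro rfl
        exact hs.loop a (Finset.mem_union_left _ hab)
      unfold cr
      simp only [Finset.mem_singleton, hmem, Prod.mk.injEq]
      by_cases p1 : a = x <;> by_cases p2 : b = x <;> by_cases p3 : a = s <;>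
        by_cases p4 : b = s <;> simp_all
    calc dd H {x} {x} ≤ ∑ e ∈ H, (cr {x} O e +
        ((if e = (x, s) then 1 else 0) + (if e = (s, x) then 1 else 0))) :=
          Finset.sum_le_sum hpt
      _ = dd H {x} O + ((∑ e ∈ H, if e = (x, s) then 1 else 0) +
          (∑ e ∈ H, if e = (s, x) then 1 else 0)) := by
          rw [Finset.sum_add_distrib, Finset.sum_add_distrib]; rfl
      _ ≤ dd H {x} O + 2 := by
          rw [Finset.sum_ite_eq', Finset.sum_ite_eq']
          split_ifs <;> omega
  have h3' : (x, y) ∈ R ∨ (y, x) ∈ R := h3.imp (@hR _) (@hR _)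
  have hR1 : 1 ≤ dd R {x} O := one_le_dd h3' h4 h5
  rw [dd_union hs.disj] at hd
  omega

lemma Setup.exists_tight (hs : Setup H R) (hR : R' ⊆ R) {x y : V}
    (h : (x, y) ∈ R' ∨ (y, x) ∈ R') : ∃ I O : Finset V, Tt (H ∪ R) R' I O x y := by
  have key : ∀ a b, (a, b) ∈ R' → ∃ I O : Finset V, Tt (H ∪ R) R' I O a b := by
    intro a b hab
    obtain ⟨I, O, h1, h2, h3, h4⟩ := hs.crit a b (hR hab)
    have hf : ff (H ∪ R) I O = 4 := by unfold ff; omega
    rcases h4 with ⟨h5, h6⟩ | ⟨h5, h6⟩
    · exact ⟨I, O, h1, hf, Or.inl hab, h5, h6⟩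
    · have : Tt (H ∪ R) R' I O b a := ⟨h1, hf, Or.inr hab, h5, h6⟩
      exact ⟨_, _, this.compl⟩
  rcases h with h | h
  · exact key x y h
  · obtain ⟨I, O, hT⟩ := key y x h
    exact ⟨_, _, hT.compl⟩

/-- the main uncrossing step -/
lemma Setup.main (hs : Setup H R) (hR : R' ⊆ R) {XI XO : Finset V} {x y : V}
    (hX : Tt (H ∪ R) R' XI XO x y)
    (hmin : ∀ I O x' y', Tt (H ∪ R) R' I O x' y' → XI.card ≤ I.card)
    {z : V} (hz : (x, z) ∈ R' ∨ (z, x) ∈ R') : z ∉ XO := by
  intro hzO
  obtain ⟨YI, YO, hY⟩ := hs.exists_tight hR hz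
  obtain ⟨hXc, hXd⟩ := hs.T1 hR hX
  obtain ⟨hYc, hYd⟩ := hs.T1 hR hY
  have hX3 := hs.T3 hR hX.compl
  have hY3 := hs.T3 hR hY.compl
  have hYcompl := hY.compl
  obtain ⟨hX1, hX2, hXe, hxI, hyO⟩ := hX
  obtain ⟨hY1, hY2, hYe, hxYI, hzYO⟩ := hY
  obtain ⟨hY1', hY2', hYe', hzYI', hxYO'⟩ := hYcompl
  obtain ⟨s, hsX⟩ := Finset.card_eq_one.mp hXc
  have hsmem : ∀ w, w ∈ XO → w ∉ XI → w = s := by
    intro w h1 h2
    have : w ∈ XO \ XI := Finset.mem_sdiff.mpr ⟨h1, h2⟩
    rw [hsX] at this
    simpa using this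
  obtain ⟨t, htY⟩ := Finset.card_eq_one.mp hYc
  have htmem : ∀ w, w ∈ YO → w ∉ YI → w = t := by
    intro w h1 h2
    have : w ∈ YO \ YI := Finset.mem_sdiff.mpr ⟨h1, h2⟩
    rw [htY] at this
    simpa using this
  by_cases hU : XO ∪ YO = univ
  · -- Case B
    have hsub := ff_submod (H ∪ R) XI XO YOᶜ YIᶜ hX1 hY1'
    have hB1 : XO ∪ YIᶜ ≠ univ := by
      intro hh
      have hsubset : XOᶜ ⊆ {t} := by
        intro w hw
        simp only [Finset.mem_compl] at hw
        have h1 : w ∈ YO := by
          have : w ∈ XO ∪ YO := hU ▸ Finset.mem_univ w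
          rcases Finset.mem_union.mp this with h | h
          · exact absurd h hw
          · exact h
        have h2 : w ∉ YI := by
          have : w ∈ XO ∪ YIᶜ := hh ▸ Finset.mem_univ w
          rcases Finset.mem_union.mp this with h | h
          · exact absurd h hw
          · simpa using h
        simp [htmem w h1 h2]
      have := Finset.card_le_card hsubset
      simp only [Finset.card_singleton] at this
      omega
    have hU4 : 4 ≤ ff (H ∪ R) (XI ∪ YOᶜ) (XO ∪ YIᶜ) :=
      hs.four_le (Finset.union_subset_union hX1 hY1') ⟨x, Finset.mem_union_left _ hxI⟩ hB1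
    have hIo : XO ∩ YIᶜ ≠ univ := by
      intro hh
      apply hyO
      have : y ∈ XO ∩ YIᶜ := hh ▸ Finset.mem_univ y
      exact (Finset.mem_inter.mp this).1
    by_cases hzI : z ∈ XI
    · have hzin : z ∈ XI ∩ YOᶜ := Finset.mem_inter.mpr ⟨hzI, hzYI'⟩
      have hI4 : 4 ≤ ff (H ∪ R) (XI ∩ YOᶜ) (XO ∩ YIᶜ) :=
        hs.four_le (Finset.inter_subset_inter hX1 hY1') ⟨z, hzin⟩ hIo
      have hT : Tt (H ∪ R) R' (XI ∩ YOᶜ) (XO ∩ YIᶜ) z x := by
        refine ⟨Finset.inter_subset_inter hX1 hY1', by omega, hYe.symm, hzin, ?_⟩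
        intro hh
        exact hxYO' (Finset.mem_inter.mp hh).2
      have hle := hmin _ _ _ _ hT
      have hlt : (XI ∩ YOᶜ).card < XI.card := by
        apply Finset.card_lt_card
        refine ⟨Finset.inter_subset_left, ?_⟩
        intro hh
        have := hh hxI
        have h2 := (Finset.mem_inter.mp this).2
        rw [Finset.mem_compl] at h2
        exact h2 (hY1 hxYI)
      omega
    · have hzs : z = s := hsmem z hzO hzI
      by_cases hemp : (XI ∩ YOᶜ).Nonempty
      · have hI4 : 4 ≤ ff (H ∪ R) (XI ∩ YOᶜ) (XO ∩ YIᶜ) :=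
          hs.four_le (Finset.inter_subset_inter hX1 hY1') hemp hIo
        have hzR : (x, z) ∈ H ∪ R ∨ (z, x) ∈ H ∪ R :=
          hYe.imp (fun h => Finset.mem_union_right _ (hR h)) (fun h => Finset.mem_union_right _ (hR h))
        have hxYO : x ∈ YO := hY1 hxYI
        have hxXO : x ∈ XO := hX1 hxI
        have hzYI : z ∉ YI := fun h => hzYO (hY1 h)
        rcases hzR with he | he
        · have hstrict := ff_submod_strict (H ∪ R) XI XO YOᶜ YIᶜ hX1 hY1' _ he (by
            simp [cr, hxI, hzO, hzI, hxYI, hzYO, hxYO, hxXO, hzYI])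
          omega
        · have hstrict := ff_submod_strict (H ∪ R) XI XO YOᶜ YIᶜ hX1 hY1' _ he (by
            simp [cr, hxI, hzO, hzI, hxYI, hzYO, hxYO, hxXO, hzYI])
          omega
      · have hsubset : YOᶜ ⊆ {s} := by
          intro w hw
          rw [Finset.mem_compl] at hw
          have h1 : w ∈ XO := by
            have : w ∈ XO ∪ YO := hU ▸ Finset.mem_univ w
            rcases Finset.mem_union.mp this with h | h
            · exact h
            · exact absurd h hw
          have h2 : w ∉ XI := by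
            intro h
            exact hemp ⟨w, Finset.mem_inter.mpr ⟨h, by simpa using hw⟩⟩
          simp [hsmem w h1 h2]
        have := Finset.card_le_card hsubset
        simp only [Finset.card_singleton] at this
        omega
  · -- Case A
    have hsub := ff_submod (H ∪ R) XI XO YI YO hX1 hY1
    have hxin : x ∈ XI ∩ YI := Finset.mem_inter.mpr ⟨hxI, hxYI⟩
    have hyout : y ∉ XO ∩ YO := fun h => hyO (Finset.mem_inter.mp h).1
    have hU4 : 4 ≤ ff (H ∪ R) (XI ∪ YI) (XO ∪ YO) :=
      hs.four_le (Finset.union_subset_union hX1 hY1) ⟨x, Finset.mem_union_left _ hxI⟩ hU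
    have hI4 : 4 ≤ ff (H ∪ R) (XI ∩ YI) (XO ∩ YO) :=
      hs.four_le (Finset.inter_subset_inter hX1 hY1) ⟨x, hxin⟩
        (fun hh => hyout (hh ▸ Finset.mem_univ y))
    have hT : Tt (H ∪ R) R' (XI ∩ YI) (XO ∩ YO) x y :=
      ⟨Finset.inter_subset_inter hX1 hY1, by omega, hXe, hxin, hyout⟩
    have hle := hmin _ _ _ _ hT
    have hXY : XI ⊆ YI := by
      have : XI ∩ YI = XI := Finset.eq_of_subset_of_card_le Finset.inter_subset_left hle
      exact Finset.inter_eq_left.mp this
    have hzYI : z ∉ YI := fun h => hzYO (hY1 h)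
    have hzI : z ∉ XI := fun h => hzYI (hXY h)
    have hzs : z = s := hsmem z hzO hzI
    obtain ⟨hTc, -⟩ := hs.T1 hR hT
    have : (XO ∩ YO) \ (XI ∩ YI) = ∅ := by
      ext w
      simp only [Finset.mem_sdiff, Finset.mem_inter, Finset.notMem_empty, iff_false]
      rintro ⟨⟨h1, h2⟩, h3⟩
      by_cases hw : w ∈ XI
      · exact h3 ⟨hw, hXY hw⟩
      · have := hsmem w h1 hw
        rw [this, ← hzs] at h2
        exact hzYO h2
    rw [this] at hTc
    simp at hTc

/-- there is a vertex incident with at least one and at most two arcs of `R'` -/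
lemma Setup.exists_low (hs : Setup H R) (hR : R' ⊆ R) (hne : R'.Nonempty) :
    ∃ x y : V, ((x, y) ∈ R' ∨ (y, x) ∈ R') ∧
      (R'.filter (fun e => e.1 = x ∨ e.2 = x)).card ≤ 2 := by
  classical
  obtain ⟨⟨a, b⟩, hab⟩ := hne
  obtain ⟨I₀, O₀, hT₀⟩ := hs.exists_tight hR (Or.inl hab)
  have hfin : ((Finset.univ : Finset (Finset V × Finset V)).filter
      (fun p => ∃ x y, Tt (H ∪ R) R' p.1 p.2 x y)).Nonempty :=
    ⟨(I₀, O₀), by simp only [Finset.mem_filter, Finset.mem_univ, true_and]; exact ⟨a, b, hT₀⟩⟩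
  obtain ⟨⟨XI, XO⟩, hmem, hmin⟩ := Finset.exists_min_image _
    (fun p : Finset V × Finset V => p.1.card) hfin
  simp only [Finset.mem_filter, Finset.mem_univ, true_and] at hmem
  obtain ⟨x, y, hT⟩ := hmem
  have hmin' : ∀ I O x' y', Tt (H ∪ R) R' I O x' y' → XI.card ≤ I.card := by
    intro I O x' y' h
    exact hmin (I, O) (by
      simp only [Finset.mem_filter, Finset.mem_univ, true_and]; exact ⟨x', y', h⟩)
  refine ⟨x, y, hT.2.2.1, ?_⟩
  obtain ⟨hc, hd⟩ := hs.T1 hR hT
  have hx : x ∈ XI := hT.2.2.2.1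
  calc (R'.filter (fun e => e.1 = x ∨ e.2 = x)).card
      = ∑ e ∈ R'.filter (fun e => e.1 = x ∨ e.2 = x), 1 := by simp
    _ ≤ ∑ e ∈ R'.filter (fun e => e.1 = x ∨ e.2 = x), cr XI XO e := by
        apply Finset.sum_le_sum
        rintro ⟨c, d⟩ hcd
        rw [Finset.mem_filter] at hcd
        obtain ⟨hcd, h | h⟩ := hcd
        · simp only at h
          subst h
          have := hs.main hR hT hmin' (Or.inl hcd)
          simp [cr, hx, this]
        · simp only at h
          subst h
          have := hs.main hR hT hmin' (Or.inr hcd)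
          simp [cr, hx, this]
    _ ≤ ∑ e ∈ H ∪ R, cr XI XO e := by
        apply Finset.sum_le_sum_of_subset
        intro e he
        exact Finset.mem_union_right _ (hR (Finset.mem_filter.mp he).1)
    _ = 2 := hd

lemma Setup.card_bound (hs : Setup H R) : ∀ (k : ℕ) (W : Finset V), W.card = k →
    ∀ R' : Finset (V × V), R' ⊆ R → R'.Nonempty → (∀ e ∈ R', e.1 ∈ W ∧ e.2 ∈ W) →
    R'.card + 2 ≤ 2 * k := by
  classical
  intro k
  induction k with
  | zero =>
    intro W hW R' _ hne hin
    obtain ⟨e, he⟩ := hne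
    rw [Finset.card_eq_zero] at hW
    have := (hin e he).1
    simp [hW] at this
  | succ k ih =>
    intro W hW R' hR hne hin
    obtain ⟨x, y, hxy, hlow⟩ := hs.exists_low hR hne
    have hxW : x ∈ W := by
      rcases hxy with h | h
      · exact (hin _ h).1
      · exact (hin _ h).2
    have hyW : y ∈ W := by
      rcases hxy with h | h
      · exact (hin _ h).2
      · exact (hin _ h).1
    have hxney : x ≠ y := by
      rintro rfl
      apply hs.loop x
      apply Finset.mem_union_right
      rcases hxy with h | h <;> exact hR h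
    have hWk : (W.erase x).card = k := by rw [Finset.card_erase_of_mem hxW]; omega
    have hk1 : 1 ≤ k := by
      rw [← hWk]
      exact Finset.card_pos.mpr ⟨y, Finset.mem_erase.mpr ⟨hxney.symm, hyW⟩⟩
    have hsplit := Finset.card_filter_add_card_filter_not (s := R')
      (fun e => e.1 = x ∨ e.2 = x)
    by_cases hne' : (R'.filter (fun e => ¬ (e.1 = x ∨ e.2 = x))).Nonempty
    · have := ih (W.erase x) hWk _ ((Finset.filter_subset _ _).trans hR) hne' (by
        intro e he
        rw [Finset.mem_filter] at he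
        obtain ⟨he1, he2⟩ := he
        push Not at he2
        exact ⟨Finset.mem_erase.mpr ⟨he2.1, (hin e he1).1⟩,
          Finset.mem_erase.mpr ⟨he2.2, (hin e he1).2⟩⟩)
      omega
    · rw [Finset.not_nonempty_iff_eq_empty] at hne'
      rw [hne', Finset.card_empty] at hsplit
      omega

/-- number of arcs entering `X` -/
def inn (A : Finset (V × V)) (X : Finset V) : ℕ := (A.filter (fun e => e.1 ∉ X ∧ e.2 ∈ X)).card

omit [Fintype V] in
lemma inn_submod (A : Finset (V × V)) (X Y : Finset V) :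
    inn A (X ∩ Y) + inn A (X ∪ Y) ≤ inn A X + inn A Y := by
  unfold inn
  simp only [Finset.card_filter]
  rw [← Finset.sum_add_distrib, ← Finset.sum_add_distrib]
  apply Finset.sum_le_sum
  rintro ⟨a, b⟩ -
  simp only [Finset.mem_inter, Finset.mem_union]
  by_cases p1 : a ∈ X <;> by_cases p2 : a ∈ Y <;> by_cases p3 : b ∈ X <;>
    by_cases p4 : b ∈ Y <;> simp [p1, p2, p3, p4]

lemma rooted (E : Finset (V × V)) (r : V)
    (h : ∀ X : Finset V, X.Nonempty → r ∉ X → 2 ≤ inn E X) :
    ∃ A ⊆ E, A.card ≤ 2 * (Fintype.card V - 1) ∧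
      ∀ X : Finset V, X.Nonempty → r ∉ X → 2 ≤ inn A X := by
  classical
  have hfin : (E.powerset.filter
      (fun A => ∀ X : Finset V, X.Nonempty → r ∉ X → 2 ≤ inn A X)).Nonempty :=
    ⟨E, by simp only [Finset.mem_filter, Finset.mem_powerset, Finset.Subset.refl, true_and]
           exact h⟩
  obtain ⟨A, hA, hmin⟩ := Finset.exists_min_image _ (fun A : Finset (V × V) => A.card) hfin
  rw [Finset.mem_filter, Finset.mem_powerset] at hA
  obtain ⟨hAE, hA2⟩ := hA
  refine ⟨A, hAE, ?_, hA2⟩
  -- every arc enters a tight set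
  have htight : ∀ u v, (u, v) ∈ A → ∃ X : Finset V, r ∉ X ∧ u ∉ X ∧ v ∈ X ∧ inn A X = 2 := by
    intro u v huv
    have hnot : ¬ ∀ X : Finset V, X.Nonempty → r ∉ X → 2 ≤ inn (A.erase (u, v)) X := by
      intro hall
      have hle := hmin (A.erase (u, v)) (by
        rw [Finset.mem_filter, Finset.mem_powerset]
        exact ⟨(Finset.erase_subset _ _).trans hAE, hall⟩)
      have hlt := Finset.card_erase_lt_of_mem huv
      omega
    push Not at hnot
    obtain ⟨X, hX1, hX2, hX3⟩ := hnot
    have h2 := hA2 X hX1 hX2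
    have hmem : (u, v) ∈ A.filter (fun e => e.1 ∉ X ∧ e.2 ∈ X) := by
      by_contra hc
      have : inn (A.erase (u, v)) X = inn A X := by
        unfold inn
        rw [Finset.filter_erase, Finset.erase_eq_of_notMem hc]
      omega
    have hm := hmem
    rw [Finset.mem_filter] at hm
    refine ⟨X, hX2, hm.2.1, hm.2.2, ?_⟩
    have : inn (A.erase (u, v)) X + 1 = inn A X := by
      unfold inn
      rw [Finset.filter_erase]
      exact Finset.card_erase_add_one hmem
    omega
  have hdeg : ∀ v : V, (A.filter (fun e => e.2 = v)).card ≤ 2 := by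
    intro v
    by_cases hne : (A.filter (fun e => e.2 = v)).Nonempty
    · obtain ⟨⟨u, v'⟩, hu⟩ := hne
      rw [Finset.mem_filter] at hu
      obtain ⟨huA, rfl⟩ := hu
      simp only at *
      obtain ⟨X₀, h1, h2, h3, h4⟩ := htight u v' huA
      have hfin2 : ((Finset.univ : Finset (Finset V)).filter
          (fun X => r ∉ X ∧ v' ∈ X ∧ inn A X = 2)).Nonempty :=
        ⟨X₀, by simp only [Finset.mem_filter, Finset.mem_univ, true_and]; exact ⟨h1, h3, h4⟩⟩
      obtain ⟨T, hT, hTmin⟩ := Finset.exists_min_image _ (fun X : Finset V => X.card) hfin2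
      simp only [Finset.mem_filter, Finset.mem_univ, true_and] at hT
      obtain ⟨hT1, hT2, hT3⟩ := hT
      rw [← hT3]
      unfold inn
      apply Finset.card_le_card
      rintro ⟨w, v''⟩ hw
      rw [Finset.mem_filter] at hw ⊢
      obtain ⟨hwA, hw2⟩ := hw
      simp only at hw2
      subst hw2
      refine ⟨hwA, ?_, hT2⟩
      obtain ⟨X, g1, g2, g3, g4⟩ := htight w v'' hwA
      have hsub := inn_submod A T X
      have hi : 2 ≤ inn A (T ∩ X) := hA2 _ ⟨v'', Finset.mem_inter.mpr ⟨hT2, g3⟩⟩
        (fun hh => hT1 (Finset.mem_inter.mp hh).1)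
      have hu : 2 ≤ inn A (T ∪ X) := hA2 _ ⟨v'', Finset.mem_union_left _ hT2⟩
        (fun hh => (Finset.mem_union.mp hh).elim hT1 g1)
      have hle := hTmin (T ∩ X) (by
        simp only [Finset.mem_filter, Finset.mem_univ, true_and]
        exact ⟨fun hh => hT1 (Finset.mem_inter.mp hh).1, Finset.mem_inter.mpr ⟨hT2, g3⟩,
          by omega⟩)
      have hTX : T ∩ X = T := Finset.eq_of_subset_of_card_le Finset.inter_subset_left hle
      intro hwT
      simp only at hwT
      rw [← hTX] at hwT
      exact g2 (Finset.mem_inter.mp hwT).2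
    · rw [Finset.not_nonempty_iff_eq_empty] at hne
      rw [hne]
      simp
  have hroot : (A.filter (fun e => e.2 = r)).card = 0 := by
    rw [Finset.card_eq_zero]
    apply Finset.eq_empty_of_forall_notMem
    rintro ⟨u, v⟩ huv
    rw [Finset.mem_filter] at huv
    obtain ⟨huA, hv⟩ := huv
    simp only at hv
    subst hv
    obtain ⟨X, g1, g2, g3, g4⟩ := htight u v huA
    exact g1 g3
  have hsum : A.card = ∑ v : V, (A.filter (fun e => e.2 = v)).card :=
    Finset.card_eq_sum_card_fiberwise (f := fun e : V × V => e.2) (t := Finset.univ)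
      (fun e _ => by simp)
  rw [hsum, ← Finset.add_sum_erase _ _ (Finset.mem_univ r), hroot, zero_add]
  calc ∑ v ∈ Finset.univ.erase r, (A.filter (fun e => e.2 = v)).card
      ≤ ∑ v ∈ Finset.univ.erase r, 2 := Finset.sum_le_sum fun v _ => hdeg v
    _ = 2 * (Fintype.card V - 1) := by
        rw [Finset.sum_const, Finset.card_erase_of_mem (Finset.mem_univ r), Finset.card_univ,
          smul_eq_mul, mul_comm]

/-- number of arcs leaving `X` -/
def outt (A : Finset (V × V)) (X : Finset V) : ℕ := (A.filter (fun e => e.1 ∈ X ∧ e.2 ∉ X)).card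

omit [Fintype V] in
lemma inn_image_swap (A : Finset (V × V)) (X : Finset V) :
    inn (A.image Prod.swap) X = outt A X := by
  unfold inn outt
  rw [Finset.filter_image, Finset.card_image_of_injective _ Prod.swap_injective]
  congr 1
  ext ⟨a, b⟩
  simp only [Finset.mem_filter, Prod.fst_swap, Prod.snd_swap]
  tauto

lemma rooted_out (E : Finset (V × V)) (r : V)
    (h : ∀ X : Finset V, X.Nonempty → r ∉ X → 2 ≤ outt E X) :
    ∃ A ⊆ E, A.card ≤ 2 * (Fintype.card V - 1) ∧
      ∀ X : Finset V, X.Nonempty → r ∉ X → 2 ≤ outt A X := by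
  obtain ⟨A, hA1, hA2, hA3⟩ := rooted (E.image Prod.swap) r (fun X h1 h2 => by
    rw [inn_image_swap]; exact h X h1 h2)
  refine ⟨A.image Prod.swap, ?_, ?_, ?_⟩
  · intro e he
    rw [Finset.mem_image] at he
    obtain ⟨a, ha, rfl⟩ := he
    have := hA1 ha
    rw [Finset.mem_image] at this
    obtain ⟨b, hb, rfl⟩ := this
    simpa using hb
  · rw [Finset.card_image_of_injective _ Prod.swap_injective]
    exact hA2
  · intro X h1 h2
    rw [← inn_image_swap, Finset.image_image]
    have : (Prod.swap ∘ Prod.swap : V × V → V × V) = id := by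
      funext x; simp
    rw [this, Finset.image_id]
    exact hA3 X h1 h2

omit [Fintype V] in
lemma inn_mono {A B : Finset (V × V)} (h : A ⊆ B) (X : Finset V) : inn A X ≤ inn B X :=
  Finset.card_le_card (Finset.filter_subset_filter _ h)

omit [Fintype V] in
lemma outt_mono {A B : Finset (V × V)} (h : A ⊆ B) (X : Finset V) : outt A X ≤ outt B X :=
  Finset.card_le_card (Finset.filter_subset_filter _ h)

lemma outt_compl (A : Finset (V × V)) (X : Finset V) : outt A Xᶜ = inn A X := by
  unfold inn outt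
  congr 1
  ext ⟨a, b⟩
  simp only [Finset.mem_filter, Finset.mem_compl, not_not]

/-- cut form of 2-arc-connectivity -/
def CutA (E : Finset (V × V)) : Prop :=
  ∀ X : Finset V, X.Nonempty → X ≠ univ → 2 ≤ outt E X

/-- cut form of the second requirement -/
def CutB (E : Finset (V × V)) : Prop :=
  ∀ I O : Finset V, I ⊆ O → I.Nonempty → O ≠ univ → (O \ I).card = 1 → 2 ≤ dd E I O

omit [Fintype V] in
lemma dd_eq (A : Finset (V × V)) (X : Finset V) : dd A X X = outt A X + inn A X := by
  unfold dd outt inn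
  rw [Finset.card_filter, Finset.card_filter, ← Finset.sum_add_distrib]
  apply Finset.sum_congr rfl
  rintro ⟨a, b⟩ -
  unfold cr
  by_cases p1 : a ∈ X <;> by_cases p2 : b ∈ X <;> simp [p1, p2]

/-- the combinatorial heart: a sparse subset with both cut properties -/
lemma sparse (E : Finset (V × V)) (hV : 2 ≤ Fintype.card V) (hloop : ∀ v, (v, v) ∉ E)
    (hA : CutA E) (hB : CutB E) :
    ∃ F ⊆ E, F.card ≤ 6 * (Fintype.card V - 1) ∧ CutA F ∧ CutB F := by
  classical
  have hpos : 0 < Fintype.card V := by omega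
  obtain ⟨r⟩ := Fintype.card_pos_iff.mp hpos
  have hA' : ∀ X : Finset V, X.Nonempty → X ≠ univ → 2 ≤ inn E X := by
    intro X h1 h2
    rw [← outt_compl]
    apply hA
    · rw [Finset.nonempty_iff_ne_empty]
      intro hh
      exact h2 ((Finset.compl_eq_empty_iff X).mp hh)
    · intro hh
      rw [Finset.compl_eq_univ_iff] at hh
      rw [hh] at h1
      simp at h1
  have hne : ∀ X : Finset V, r ∉ X → X ≠ univ := by
    rintro X h rfl
    exact h (Finset.mem_univ r)
  obtain ⟨A1, hA1, hA1c, hA1p⟩ := rooted E r (fun X h1 h2 => hA' X h1 (hne X h2))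
  obtain ⟨A2, hA2, hA2c, hA2p⟩ := rooted_out E r (fun X h1 h2 => hA X h1 (hne X h2))
  set H := A1 ∪ A2 with hH
  have hHE : H ⊆ E := Finset.union_subset hA1 hA2
  have hHout : ∀ X : Finset V, X.Nonempty → X ≠ univ → 2 ≤ outt H X := by
    intro X h1 h2
    by_cases hr : r ∈ X
    · have h3 : 2 ≤ inn A1 Xᶜ := by
        apply hA1p
        · rw [Finset.nonempty_iff_ne_empty]
          intro hh
          exact h2 ((Finset.compl_eq_empty_iff X).mp hh)
        · simpa using hr
      have h4 : inn A1 Xᶜ ≤ inn H Xᶜ := inn_mono (Finset.subset_union_left : A1 ⊆ H) Xᶜ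
      have h5 : outt H X = inn H Xᶜ := by rw [← outt_compl, compl_compl]
      omega
    · exact (hA2p X h1 hr).trans (outt_mono Finset.subset_union_right X)
  have hHin : ∀ X : Finset V, X.Nonempty → X ≠ univ → 2 ≤ inn H X := by
    intro X h1 h2
    rw [← outt_compl]
    apply hHout
    · rw [Finset.nonempty_iff_ne_empty]
      intro hh
      exact h2 ((Finset.compl_eq_empty_iff X).mp hh)
    · intro hh
      rw [Finset.compl_eq_univ_iff] at hh
      rw [hh] at h1
      simp at h1
  have hHcard : H.card ≤ 4 * (Fintype.card V - 1) := by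
    have : H.card ≤ A1.card + A2.card := Finset.card_union_le A1 A2
    omega
  -- minimal R
  have hfin : ((E \ H).powerset.filter (fun R => CutB (H ∪ R))).Nonempty := by
    refine ⟨E \ H, ?_⟩
    simp only [Finset.mem_filter, Finset.mem_powerset, Finset.Subset.refl, true_and]
    rw [Finset.union_sdiff_of_subset hHE]
    exact hB
  obtain ⟨R, hR, hRmin⟩ := Finset.exists_min_image _ (fun R : Finset (V × V) => R.card) hfin
  rw [Finset.mem_filter, Finset.mem_powerset] at hR
  obtain ⟨hRE, hRB⟩ := hR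
  have hdisj : Disjoint H R := by
    rw [Finset.disjoint_left]
    intro e he he'
    exact (Finset.mem_sdiff.mp (hRE he')).2 he
  have hRE' : R ⊆ E := hRE.trans Finset.sdiff_subset
  have hs : Setup H R := by
    refine ⟨?_, hdisj, ?_, hRB, ?_⟩
    · intro v hv
      rcases Finset.mem_union.mp hv with h | h
      · exact hloop v (hHE h)
      · exact hloop v (hRE' h)
    · intro I h1 h2
      rw [dd_eq]
      have := hHout I h1 h2
      have := hHin I h1 h2
      omega
    · intro x y hxy
      have hnot : ¬ CutB (H ∪ R.erase (x, y)) := by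
        intro hc
        have hle := hRmin (R.erase (x, y)) (by
          rw [Finset.mem_filter, Finset.mem_powerset]
          exact ⟨(Finset.erase_subset _ _).trans hRE, hc⟩)
        have := Finset.card_erase_lt_of_mem hxy
        omega
      unfold CutB at hnot
      push Not at hnot
      obtain ⟨I, O, h1, h2, h3, h4, h5⟩ := hnot
      have h6 := hRB I O h1 h2 h3 h4
      have hnotin : (x, y) ∉ H := fun hh => Finset.disjoint_left.mp hdisj hh hxy
      have hun : H ∪ R = insert (x, y) (H ∪ R.erase (x, y)) := by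
        ext e
        simp only [Finset.mem_union, Finset.mem_insert, Finset.mem_erase]
        constructor
        · rintro (h | h)
          · exact Or.inr (Or.inl h)
          · by_cases he : e = (x, y)
            · exact Or.inl he
            · exact Or.inr (Or.inr ⟨he, h⟩)
        · rintro (h | h | h)
          · rw [h]; exact Or.inr hxy
          · exact Or.inl h
          · exact Or.inr h.2
      have hsum : dd (H ∪ R) I O = cr I O (x, y) + dd (H ∪ R.erase (x, y)) I O := by
        rw [hun]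
        unfold dd
        rw [Finset.sum_insert]
        simp [hnotin]
      have hc1 := cr_le_one I O (x, y)
      refine ⟨I, O, h1, h4, by omega, ?_⟩
      have hc2 : cr I O (x, y) = 1 := by omega
      unfold cr at hc2
      by_contra hcon
      rw [if_neg hcon] at hc2
      omega
  have hRcard : R.card ≤ 2 * (Fintype.card V - 1) := by
    by_cases hne' : R.Nonempty
    · have := hs.card_bound (Fintype.card V) Finset.univ Finset.card_univ R
        (Finset.Subset.refl _) hne' (fun e _ => ⟨Finset.mem_univ _, Finset.mem_univ _⟩)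
      omega
    · rw [Finset.not_nonempty_iff_eq_empty] at hne'
      rw [hne']
      simp
  refine ⟨H ∪ R, Finset.union_subset hHE hRE', ?_, ?_, hRB⟩
  · have := Finset.card_union_le H R
    omega
  · intro X h1 h2
    exact (hHout X h1 h2).trans (outt_mono Finset.subset_union_left X)


end Core

section Bridge

variable {V : Type u} [Fintype V] [DecidableEq V]

omit [Fintype V] in
lemma exists_cross {r : V → V → Prop} {a b : V} (h : Relation.ReflTransGen r a b)
    (X : Finset V) (ha : a ∈ X) (hb : b ∉ X) : ∃ x y, x ∈ X ∧ y ∉ X ∧ r x y := by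
  induction h with
  | refl => exact absurd ha hb
  | @tail c d _ hcd ih =>
    by_cases hc : c ∈ X
    · exact ⟨c, d, hc, hb, hcd⟩
    · exact ih hc

lemma one_le_outt_of_sc {E : Finset (V × V)} (h : StronglyConnected (E : Set (V × V)))
    (X : Finset V) (h1 : X.Nonempty) (h2 : X ≠ univ) : 1 ≤ outt E X := by
  obtain ⟨a, ha⟩ := h1
  obtain ⟨b, hb⟩ : ∃ b, b ∉ X := by
    by_contra hc
    push Not at hc
    exact h2 (Finset.eq_univ_iff_forall.mpr hc)
  obtain ⟨x, y, hx, hy, hxy⟩ := exists_cross (h a b) X ha hb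
  exact Finset.card_pos.mpr ⟨(x, y), Finset.mem_filter.mpr ⟨by simpa using hxy, hx, hy⟩⟩

lemma sc_of_one_le_outt {E : Finset (V × V)}
    (h : ∀ X : Finset V, X.Nonempty → X ≠ univ → 1 ≤ outt E X) :
    StronglyConnected (E : Set (V × V)) := by
  classical
  intro a b
  set X : Finset V := Finset.univ.filter
    (fun c => Relation.ReflTransGen (fun x y => (x, y) ∈ (E : Set (V × V))) a c) with hX
  by_contra hb
  have haX : a ∈ X := by simp [hX, Relation.ReflTransGen.refl]
  have hbX : b ∉ X := by simpa [hX] using hb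
  have := h X ⟨a, haX⟩ (fun hh => hbX (hh ▸ Finset.mem_univ b))
  obtain ⟨⟨x, y⟩, hxy⟩ := Finset.card_pos.mp (by omega : 0 < outt E X)
  rw [Finset.mem_filter] at hxy
  obtain ⟨h1, h2, h3⟩ := hxy
  simp only at h2 h3
  apply h3
  rw [hX, Finset.mem_filter] at h2 ⊢
  exact ⟨Finset.mem_univ _, h2.2.tail (by simpa using h1)⟩

lemma one_le_dd_of_conn {E : Finset (V × V)}
    (h : ∀ v : V, ((underlying (E : Set (V × V))).induce {w | w ≠ v}).Connected)
    (I O : Finset V) (h1 : I ⊆ O) (h2 : I.Nonempty) (h3 : O ≠ univ) (h4 : (O \ I).card = 1) :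
    1 ≤ dd E I O := by
  obtain ⟨v, hv⟩ := Finset.card_eq_one.mp h4
  have hvO : v ∈ O ∧ v ∉ I := by
    have : v ∈ O \ I := by rw [hv]; simp
    simpa using this
  obtain ⟨a, ha⟩ := h2
  obtain ⟨b, hb⟩ : ∃ b, b ∉ O := by
    by_contra hc
    push Not at hc
    exact h3 (Finset.eq_univ_iff_forall.mpr hc)
  have hav : a ≠ v := fun hh => hvO.2 (hh ▸ ha)
  have hbv : b ≠ v := fun hh => hb (hh ▸ hvO.1)
  obtain ⟨p⟩ := (h v).preconnected ⟨a, hav⟩ ⟨b, hbv⟩
  obtain ⟨d, -, hd1, hd2⟩ := p.exists_boundary_dart {w | (w : V) ∈ I} ha (fun hh => hb (h1 hh))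
  have hadj : (underlying (E : Set (V × V))).Adj (d.fst : V) (d.snd : V) := d.adj
  obtain ⟨-, hadj⟩ := hadj
  have hsnd : (d.snd : V) ∉ O := by
    intro hh
    have : (d.snd : V) ∈ O \ I := Finset.mem_sdiff.mpr ⟨hh, hd2⟩
    rw [hv, Finset.mem_singleton] at this
    exact d.snd.2 this
  exact one_le_dd (by simpa using hadj) hd1 hsnd

lemma conn_of_one_le_dd {E : Finset (V × V)} (hV : 3 ≤ Fintype.card V)
    (h : ∀ I O : Finset V, I ⊆ O → I.Nonempty → O ≠ univ → (O \ I).card = 1 → 1 ≤ dd E I O)
    (v : V) :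
    ((underlying (E : Set (V × V))).induce {w | w ≠ v}).Connected := by
  classical
  have hne : ∃ w, w ≠ v := by
    have : Nontrivial V := Fintype.one_lt_card_iff_nontrivial.mp (by omega)
    exact exists_ne v
  obtain ⟨w, hw⟩ := hne
  have : Nonempty ({w | w ≠ v} : Set V) := ⟨⟨w, hw⟩⟩
  refine ⟨?_⟩
  rintro ⟨a, ha⟩ ⟨b, hb⟩
  by_contra hnr
  set U := (underlying (E : Set (V × V))).induce {w | w ≠ v} with hU
  set I : Finset V := Finset.univ.filter (fun c => ∃ hc : c ≠ v, U.Reachable ⟨a, ha⟩ ⟨c, hc⟩)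
    with hI
  have haI : a ∈ I := by
    rw [hI, Finset.mem_filter]
    exact ⟨Finset.mem_univ _, ha, SimpleGraph.Reachable.refl _⟩
  have hvI : v ∉ I := by
    rw [hI, Finset.mem_filter]
    rintro ⟨-, hc, -⟩
    exact hc rfl
  have hbI : b ∉ I := by
    rw [hI, Finset.mem_filter]
    rintro ⟨-, hc, hr⟩
    exact hnr hr
  have hbO : b ∉ insert v I := by
    rw [Finset.mem_insert]
    rintro (hh | hh)
    · exact hb hh
    · exact hbI hh
  have hcard : (insert v I \ I).card = 1 := by
    rw [Finset.insert_sdiff_of_notMem _ hvI, Finset.sdiff_self]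
    simp
  have := h I (insert v I) (Finset.subset_insert _ _) ⟨a, haI⟩
    (fun hh => hbO (hh ▸ Finset.mem_univ b)) hcard
  -- get a crossing arc
  have hex : ∃ e ∈ E, cr I (insert v I) e ≠ 0 := by
    by_contra hcon
    push Not at hcon
    have : dd E I (insert v I) = 0 := Finset.sum_eq_zero hcon
    omega
  obtain ⟨⟨x, y⟩, hxy, hcr⟩ := hex
  have key : ∀ x y, ((x, y) ∈ E ∨ (y, x) ∈ E) → x ∈ I → y ∉ insert v I → False := by
    intro x y hE hx hy
    rw [Finset.mem_insert] at hy
    push Not at hy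
    have hx' := hx
    rw [hI, Finset.mem_filter] at hx'
    obtain ⟨-, hxv, hr⟩ := hx'
    apply hy.2
    rw [hI, Finset.mem_filter]
    refine ⟨Finset.mem_univ _, hy.1, hr.trans ?_⟩
    apply SimpleGraph.Adj.reachable
    change (underlying (E : Set (V × V))).Adj x y
    refine ⟨?_, by simpa using hE⟩
    rintro rfl
    exact hy.2 hx
  unfold cr at hcr
  have : (x ∈ I ∧ y ∉ insert v I) ∨ (y ∈ I ∧ x ∉ insert v I) := by
    by_contra hc
    rw [if_neg hc] at hcr
    exact hcr rfl
  rcases this with h | h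
  · exact key x y (Or.inl hxy) h.1 h.2
  · exact key y x (Or.inr hxy) h.1 h.2

omit [Fintype V] in
lemma outt_erase (E : Finset (V × V)) (e : V × V) (X : Finset V) :
    outt E X ≤ outt (E.erase e) X + 1 := by
  unfold outt
  rw [Finset.filter_erase]
  exact (Finset.card_le_card (Finset.insert_erase_subset e _)).trans (Finset.card_insert_le _ _)

omit [Fintype V] in
lemma dd_erase (E : Finset (V × V)) (e : V × V) (I O : Finset V) :
    dd E I O ≤ dd (E.erase e) I O + 1 := by
  by_cases he : e ∈ E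
  · unfold dd
    rw [← Finset.add_sum_erase _ _ he]
    have := cr_le_one I O e
    omega
  · rw [Finset.erase_eq_of_notMem he]
    omega

lemma twoESB_of_cuts {G : Finset (V × V)} (hV : 3 ≤ Fintype.card V)
    (hloop : ∀ v, (v, v) ∉ G) (hA : CutA G) (hB : CutB G) :
    TwoEdgeStronglyBiconnected (G : Set (V × V)) := by
  have main : ∀ F : Finset (V × V), (∀ v, (v, v) ∉ F) →
      (∀ X : Finset V, X.Nonempty → X ≠ univ → 1 ≤ outt F X) →
      (∀ I O : Finset V, I ⊆ O → I.Nonempty → O ≠ univ → (O \ I).card = 1 → 1 ≤ dd F I O) →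
      StronglyBiconnected (F : Set (V × V)) := by
    intro F hl h1 h2
    have hsc := sc_of_one_le_outt h1
    refine ⟨hsc, ?_, conn_of_one_le_dd hV h2⟩
    have : Nonempty V := Fintype.card_pos_iff.mp (by omega)
    refine ⟨?_⟩
    intro a b
    have hab := hsc a b
    induction hab with
    | refl => exact SimpleGraph.Reachable.refl _
    | @tail c d _ hcd ih =>
      refine ih.trans (SimpleGraph.Adj.reachable ⟨?_, Or.inl hcd⟩)
      rintro rfl
      exact hl c (by simpa using hcd)
  refine ⟨main G hloop (fun X h1 h2 => (hA X h1 h2).trans' (by norm_num))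
    (fun I O h1 h2 h3 h4 => (hB I O h1 h2 h3 h4).trans' (by norm_num)), ?_, ?_⟩
  · rwa [Nat.card_eq_fintype_card]
  · intro e he
    rw [← Finset.coe_erase]
    apply main
    · intro v hv
      exact hloop v (Finset.mem_of_mem_erase hv)
    · intro X h1 h2
      have := hA X h1 h2
      have := outt_erase G e X
      omega
    · intro I O h1 h2 h3 h4
      have := hB I O h1 h2 h3 h4
      have := dd_erase G e I O
      omega

lemma cuts_of_twoESB {G : Finset (V × V)} (h : TwoEdgeStronglyBiconnected (G : Set (V × V))) :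
    CutA G ∧ CutB G := by
  obtain ⟨h1, h2, h3⟩ := h
  constructor
  · intro X hX1 hX2
    have h4 := one_le_outt_of_sc h1.1 X hX1 hX2
    obtain ⟨e, he⟩ := Finset.card_pos.mp (by omega : 0 < outt G X)
    have heG : e ∈ G := (Finset.mem_filter.mp he).1
    have h5 := h3 e (by simpa using heG)
    rw [← Finset.coe_erase] at h5
    have h6 := one_le_outt_of_sc h5.1 X hX1 hX2
    unfold outt at h6 ⊢
    rw [Finset.filter_erase] at h6
    have h7 := Finset.card_erase_add_one he
    omega
  · intro I O hI1 hI2 hI3 hI4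
    have h4 := one_le_dd_of_conn h1.2.2 I O hI1 hI2 hI3 hI4
    have hex : ∃ e ∈ G, cr I O e ≠ 0 := by
      by_contra hcon
      push Not at hcon
      have : dd G I O = 0 := Finset.sum_eq_zero hcon
      omega
    obtain ⟨e, heG, hcr⟩ := hex
    have h5 := h3 e (by simpa using heG)
    rw [← Finset.coe_erase] at h5
    have h6 := one_le_dd_of_conn h5.2.2 I O hI1 hI2 hI3 hI4
    have h7 : dd G I O = cr I O e + dd (G.erase e) I O := by
      unfold dd
      rw [Finset.add_sum_erase _ _ heG]
    omega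

end Bridge

/-- **Answer to Q1.** Every minimal 2-edge-strongly biconnected digraph on `n` vertices has at
most `6 (n - 1)` arcs; in particular at most `7 n`. -/
theorem result {V : Type u} [Finite V] (E : Set (V × V)) (hloop : ∀ v : V, (v, v) ∉ E)
    (h : MinimalTwoEdgeStronglyBiconnected E) :
    E.ncard ≤ 6 * (Nat.card V - 1) := by
  classical
  have : Fintype V := Fintype.ofFinite V
  obtain ⟨G, rfl⟩ : ∃ G : Finset (V × V), (G : Set (V × V)) = E :=
    ⟨E.toFinset, Set.coe_toFinset E⟩
  obtain ⟨h1, h2⟩ := h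
  have hV : 3 ≤ Fintype.card V := by
    have := h1.2.1
    rwa [Nat.card_eq_fintype_card] at this
  have hloop' : ∀ v, (v, v) ∉ G := fun v hv => hloop v (by simpa using hv)
  obtain ⟨hA, hB⟩ := cuts_of_twoESB h1
  obtain ⟨F, hF1, hF2, hF3, hF4⟩ := sparse G (by omega) hloop' hA hB
  have hFG : F = G := by
    by_contra hne
    obtain ⟨e, he⟩ : ∃ e, e ∈ G \ F := by
      by_contra hc
      push Not at hc
      apply hne
      apply Finset.Subset.antisymm hF1
      intro e he
      by_contra heF
      exact hc e (Finset.mem_sdiff.mpr ⟨he, heF⟩)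
    rw [Finset.mem_sdiff] at he
    apply h2 e (by simpa using he.1)
    rw [← Finset.coe_erase]
    have hsub : F ⊆ G.erase e := fun x hx =>
      Finset.mem_erase.mpr ⟨fun hh => he.2 (hh ▸ hx), hF1 hx⟩
    apply twoESB_of_cuts hV
    · intro v hv
      exact hloop' v (Finset.mem_of_mem_erase hv)
    · intro X g1 g2
      exact (hF3 X g1 g2).trans (outt_mono hsub X)
    · intro I O g1 g2 g3 g4
      exact (hF4 I O g1 g2 g3 g4).trans (dd_mono hsub I O)
  rw [Set.ncard_coe_finset, Nat.card_eq_fintype_card, ← hFG]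
  exact hF2

end Pool.Agent.Results.MP_93593e_co.SixBound
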